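import Mathlib

/-!
# Point spaces of locally temperate frames are locally strongly sober
-/

namespace Pool.Agent.Results.MP_405999_gt.PointSpaces

universe u

variable {L : Type u} [Order.Frame L]

/-- A filter on `L`: a nonempty upwards closed set in which any two elements have a lower
bound. -/
def IsFilt (F : Set L) : Prop :=
  F.Nonempty ∧ IsUpperSet F ∧ ∀ a ∈ F, ∀ b ∈ F, ∃ c ∈ F, c ≤ a ∧ c ≤ b

/-- A Scott open set: upwards closed, and whenever the supremum of a (nonempty) directed set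
lies in it, some member of the directed set does. -/
def IsScottOpen (U : Set L) : Prop :=
  IsUpperSet U ∧ ∀ D : Set L, D.Nonempty → DirectedOn (· ≤ ·) D → sSup D ∈ U → ∃ d ∈ D, d ∈ U

/-- The join of two filters: `{u ⊓ v : u ∈ F, v ∈ G}`. -/
def filtJoin (F G : Set L) : Set L := {w | ∃ u ∈ F, ∃ v ∈ G, w = u ⊓ v}

variable (L) in
/-- `L` is locally temperate: the join of any two Scott open filters is Scott open. -/
def LocallyTemperate : Prop :=
  ∀ F G : Set L, IsFilt F → IsScottOpen F → IsFilt G → IsScottOpen G →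
    IsScottOpen (filtJoin F G)

variable (L) in
/-- The points of `L`: the completely prime filters. -/
structure Pt where
  /-- The underlying set of elements of the frame. -/
  carrier : Set L
  /-- It is a filter. -/
  isFilt : IsFilt carrier
  /-- It is completely prime. -/
  prime : ∀ S : Set L, sSup S ∈ carrier → ∃ s ∈ S, s ∈ carrier

/-- The basic (in fact: every) open set `O_u` of the space of points. -/
def opn (u : L) : Set (Pt L) := {x | u ∈ x.carrier}

theorem Pt.ext' {x y : Pt L} (h : x.carrier = y.carrier) : x = y := by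
  cases x; cases y; simp only at h; subst h; rfl

theorem top_mem (x : Pt L) : (⊤ : L) ∈ x.carrier := by
  obtain ⟨a, ha⟩ := x.isFilt.1
  exact x.isFilt.2.1 le_top ha

theorem inf_mem (x : Pt L) {a b : L} (ha : a ∈ x.carrier) (hb : b ∈ x.carrier) :
    a ⊓ b ∈ x.carrier := by
  obtain ⟨c, hc, h1, h2⟩ := x.isFilt.2.2 a ha b hb
  exact x.isFilt.2.1 (le_inf h1 h2) hc

/-- The topology of the space of points: the open sets are exactly the sets `O_u`. -/
instance : TopologicalSpace (Pt L) where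
  IsOpen s := ∃ u : L, s = opn u
  isOpen_univ := ⟨⊤, by ext x; simp [opn, top_mem x]⟩
  isOpen_inter := by
    rintro _ _ ⟨u, rfl⟩ ⟨v, rfl⟩
    refine ⟨u ⊓ v, ?_⟩
    ext x
    constructor
    · rintro ⟨h1, h2⟩
      exact inf_mem x h1 h2
    · intro h
      exact ⟨x.isFilt.2.1 inf_le_left h, x.isFilt.2.1 inf_le_right h⟩
  isOpen_sUnion := by
    intro S hS
    refine ⟨sSup {u | opn u ∈ S}, ?_⟩
    ext x
    constructor
    · rintro ⟨s, hs, hx⟩
      obtain ⟨u, rfl⟩ := hS s hs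
      exact x.isFilt.2.1 (le_sSup (show u ∈ {u | opn u ∈ S} from hs)) hx
    · intro h
      obtain ⟨u, hu, hux⟩ := x.prime _ h
      exact ⟨opn u, hu, hux⟩

/-- The set of limits of an ultrafilter: the points all of whose open neighbourhoods lie in
the ultrafilter. -/
def limits {X : Type*} [TopologicalSpace X] (𝒰 : Ultrafilter X) : Set X :=
  {x | ∀ s : Set X, IsOpen s → x ∈ s → s ∈ 𝒰}

/-- `X` is locally strongly sober: for every ultrafilter the set of limits is empty or is the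
closure of exactly one point. -/
def LocallyStronglySober (X : Type*) [TopologicalSpace X] : Prop :=
  ∀ 𝒰 : Ultrafilter X, limits 𝒰 = ∅ ∨ ∃! x : X, limits 𝒰 = closure {x}

/-- A prime element gives a point. -/
def ofPrime (p : L) (h1 : p ≠ ⊤) (h2 : ∀ a b : L, a ⊓ b ≤ p → a ≤ p ∨ b ≤ p) : Pt L where
  carrier := {w | ¬ w ≤ p}
  isFilt := by
    refine ⟨⟨⊤, fun h => h1 (top_le_iff.1 h)⟩, fun a b hab ha hb => ha (hab.trans hb), ?_⟩
    intro a ha b hb
    refine ⟨a ⊓ b, fun h => ?_, inf_le_left, inf_le_right⟩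
    rcases h2 a b h with h | h
    · exact ha h
    · exact hb h
  prime := by
    intro S hS
    by_contra hcon
    push Not at hcon
    refine hS (sSup_le fun s hs => ?_)
    by_contra h
    exact hcon s hs h

theorem scott_of_pt (x : Pt L) : IsScottOpen x.carrier :=
  ⟨x.isFilt.2.1, fun D _ _ h => x.prime D h⟩

theorem opn_sup (a b : L) : opn (a ⊔ b) = opn a ∪ opn b := by
  ext x
  constructor
  · intro h
    have h' : sSup ({a, b} : Set L) ∈ x.carrier := by
      rw [sSup_pair]; exact h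
    obtain ⟨s, hs, hx⟩ := x.prime _ h'
    rcases hs with rfl | hs
    · exact Or.inl hx
    · rw [Set.mem_singleton_iff] at hs
      subst hs
      exact Or.inr hx
  · rintro (h | h)
    · exact x.isFilt.2.1 le_sup_left h
    · exact x.isFilt.2.1 le_sup_right h

theorem opn_bot : opn (⊥ : L) = ∅ := by
  ext x
  simp only [Set.mem_empty_iff_false, iff_false]
  intro h
  have h' : sSup (∅ : Set L) ∈ x.carrier := by rw [sSup_empty]; exact h
  obtain ⟨s, hs, _⟩ := x.prime _ h'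
  exact hs

theorem opn_inf (a b : L) : opn (a ⊓ b) = opn a ∩ opn b := by
  ext x
  exact ⟨fun h => ⟨x.isFilt.2.1 inf_le_left h, x.isFilt.2.1 inf_le_right h⟩,
    fun h => inf_mem x h.1 h.2⟩

/-- A Scott open filter not containing `m` misses a prime element above `m`. -/
theorem exists_prime (G : Set L) (hG : IsScottOpen G) (hinf : ∀ a ∈ G, ∀ b ∈ G, a ⊓ b ∈ G)
    (hne : G.Nonempty) (m : L) (hm : m ∉ G) :
    ∃ p : L, m ≤ p ∧ p ∉ G ∧ p ≠ ⊤ ∧ ∀ a b : L, a ⊓ b ≤ p → a ≤ p ∨ b ≤ p := by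
  obtain ⟨p, hmp, hp⟩ := zorn_le_nonempty₀ (Gᶜ) (by
    intro c hc hchain y hy
    refine ⟨sSup c, fun h => ?_, fun z hz => le_sSup hz⟩
    obtain ⟨d, hd, hdG⟩ := hG.2 c ⟨y, hy⟩ hchain.directedOn h
    exact hc hd hdG) m hm
  have hpG : p ∉ G := hp.prop
  have hup : ∀ a : L, ¬ a ≤ p → p ⊔ a ∈ G := by
    intro a ha
    by_contra hcon
    exact ha (le_sup_right.trans (hp.le_of_ge hcon le_sup_left))
  refine ⟨p, hmp, hpG, ?_, ?_⟩
  · rintro rfl
    obtain ⟨g, hg⟩ := hne
    exact hpG (hG.1 le_top hg)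
  · intro a b hab
    by_contra hcon
    push Not at hcon
    have h1 := hinf _ (hup a hcon.1) _ (hup b hcon.2)
    rw [← sup_inf_left, sup_eq_left.2 hab] at h1
    exact hpG h1

/-- The key step: two limits have a common specialization among the limits. -/
theorem key (hL : LocallyTemperate L) (𝒰 : Ultrafilter (Pt L)) {x y : Pt L}
    (hx : x ∈ limits 𝒰) (hy : y ∈ limits 𝒰) :
    ∃ z ∈ limits 𝒰, x.carrier ⊆ z.carrier ∧ y.carrier ⊆ z.carrier := by
  obtain ⟨G, hG⟩ : ∃ G : Set L, G = filtJoin x.carrier y.carrier := ⟨_, rfl⟩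
  have hGs : IsScottOpen G := hG ▸ hL _ _ x.isFilt (scott_of_pt x) y.isFilt (scott_of_pt y)
  have hGU : ∀ w ∈ G, opn w ∈ 𝒰 := by
    intro w hw
    rw [hG] at hw
    obtain ⟨a, ha, b, hb, rfl⟩ := hw
    rw [opn_inf]
    exact Filter.inter_mem (hx _ ⟨a, rfl⟩ ha) (hy _ ⟨b, rfl⟩ hb)
  have hGinf : ∀ a ∈ G, ∀ b ∈ G, a ⊓ b ∈ G := by
    intro a ha b hb
    rw [hG] at ha hb ⊢
    obtain ⟨a1, ha1, a2, ha2, rfl⟩ := ha
    obtain ⟨b1, hb1, b2, hb2, rfl⟩ := hb
    exact ⟨a1 ⊓ b1, inf_mem x ha1 hb1, a2 ⊓ b2, inf_mem y ha2 hb2, inf_inf_inf_comm _ _ _ _⟩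
  have hxG : x.carrier ⊆ G := by
    intro a ha
    rw [hG]
    exact ⟨a, ha, ⊤, top_mem y, (inf_top_eq a).symm⟩
  have hyG : y.carrier ⊆ G := by
    intro a ha
    rw [hG]
    exact ⟨⊤, top_mem x, a, ha, (top_inf_eq a).symm⟩
  obtain ⟨D, hD⟩ : ∃ D : Set L, D = {w | opn w ∉ 𝒰} := ⟨_, rfl⟩
  have hDmem : ∀ w, w ∈ D ↔ opn w ∉ 𝒰 := by intro w; rw [hD]; rfl
  have hDne : D.Nonempty := ⟨⊥, by
    rw [hDmem, opn_bot]
    exact Filter.empty_notMem (𝒰 : Filter (Pt L))⟩
  have hDdir : DirectedOn (· ≤ ·) D := by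
    intro a ha b hb
    refine ⟨a ⊔ b, ?_, le_sup_left, le_sup_right⟩
    rw [hDmem] at ha hb ⊢
    rw [opn_sup]
    intro h
    rcases Ultrafilter.union_mem_iff.1 h with h | h
    · exact ha h
    · exact hb h
  have hm : sSup D ∉ G := by
    intro h
    obtain ⟨d, hd, hdG⟩ := hGs.2 D hDne hDdir h
    exact (hDmem d).1 hd (hGU d hdG)
  obtain ⟨p, hmp, hpG, h1, h2⟩ := exists_prime G hGs hGinf ⟨⊤, hxG (top_mem x)⟩ _ hm
  have hGz : G ⊆ (ofPrime p h1 h2).carrier := by
    intro w hw hwp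
    exact hpG (hGs.1 hwp hw)
  refine ⟨ofPrime p h1 h2, ?_, hxG.trans hGz, hyG.trans hGz⟩
  rintro s ⟨w, rfl⟩ hw
  by_contra hcon
  exact hw ((le_sSup ((hDmem w).2 hcon)).trans hmp)

/-- **Theorem.** The space of points of every locally temperate frame is locally strongly
sober. -/
theorem result :
    ∀ (L : Type u) [Order.Frame L], LocallyTemperate L → LocallyStronglySober (Pt L) := by
  intro L _ hL 𝒰
  rcases Set.eq_empty_or_nonempty (limits 𝒰) with h0 | h0
  · exact Or.inl h0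
  right
  obtain ⟨q, hq⟩ : ∃ q : L, q = sSup {u : L | ∀ x ∈ limits 𝒰, u ∉ x.carrier} := ⟨_, rfl⟩
  have hq0 : ∀ x ∈ limits 𝒰, q ∉ x.carrier := by
    intro x hx hqx
    rw [hq] at hqx
    obtain ⟨u, hu, hux⟩ := x.prime _ hqx
    exact hu x hx hux
  have hq1 : ∀ u : L, (∀ x ∈ limits 𝒰, u ∉ x.carrier) → u ≤ q := by
    intro u hu
    rw [hq]
    exact le_sSup hu
  -- membership in the limit set
  have hlim : ∀ x : Pt L, x ∈ limits 𝒰 ↔ q ∉ x.carrier := by
    intro x
    refine ⟨hq0 x, fun hx => ?_⟩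
    rintro s ⟨w, rfl⟩ hw
    by_contra hcon
    have : w ≤ q := hq1 w (fun y hy hwy => hcon (hy _ ⟨w, rfl⟩ hwy))
    exact hx (x.isFilt.2.1 this hw)
  have hqtop : q ≠ ⊤ := by
    rintro rfl
    obtain ⟨x, hx⟩ := h0
    exact hq0 x hx (top_mem x)
  have hqprime : ∀ a b : L, a ⊓ b ≤ q → a ≤ q ∨ b ≤ q := by
    intro a b hab
    by_contra hcon
    push Not at hcon
    have ha : ∃ x ∈ limits 𝒰, a ∈ x.carrier := by
      by_contra h
      push Not at h
      exact hcon.1 (hq1 a h)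
    have hb : ∃ x ∈ limits 𝒰, b ∈ x.carrier := by
      by_contra h
      push Not at h
      exact hcon.2 (hq1 b h)
    obtain ⟨x, hx, hax⟩ := ha
    obtain ⟨y, hy, hby⟩ := hb
    obtain ⟨z, hz, hxz, hyz⟩ := key hL 𝒰 hx hy
    exact hq0 z hz (z.isFilt.2.1 hab (inf_mem z (hxz hax) (hyz hby)))
  have hcl : ∀ g x : Pt L, x ∈ closure {g} ↔ x.carrier ⊆ g.carrier := by
    intro g x
    rw [mem_closure_iff]
    constructor
    · intro h u hu
      obtain ⟨y, hy, hyg⟩ := h (opn u) ⟨u, rfl⟩ hu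
      rw [Set.mem_singleton_iff] at hyg
      subst hyg
      exact hy
    · rintro h _ ⟨u, rfl⟩ hu
      exact ⟨g, h hu, rfl⟩
  refine ⟨ofPrime q hqtop hqprime, ?_, ?_⟩
  · ext x
    rw [hlim, hcl]
    constructor
    · intro h u hu huq
      exact h (x.isFilt.2.1 huq hu)
    · intro h hqx
      exact h hqx le_rfl
  · intro g hg
    apply Pt.ext'
    apply Set.Subset.antisymm
    · have h1 : g ∈ limits 𝒰 := by rw [hg, hcl]
      intro u hu huq
      exact (hlim g).1 h1 (g.isFilt.2.1 huq hu)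
    · have h1 : ofPrime q hqtop hqprime ∈ limits 𝒰 := by
        rw [hlim]
        intro h
        exact h le_rfl
      rw [hg, hcl] at h1
      exact h1

end Pool.Agent.Results.MP_405999_gt.PointSpaces
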